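import Mathlib
import Pool.Agent.Q35.Col
import Pool.Agent.Q35.Auto

namespace Pool.Agent.Results.MP_26251e_nt.QOneFalse

open PowerSeries Pool.Agent.Q35 Pool.Agent.Q35.Auto

/-- `d p m n`, the coefficient of `x^n` in
`(1-x)^(-m) ∏_{j ≥ 0} (1 - x^(p^j))^(-(p-1)m)`; the factors with `j > n` do not influence this
coefficient, and `1/(1-x^e)` is written as the series with coefficient `1` at the multiples of `e`
and `0` elsewhere. -/
noncomputable def d (p m n : ℕ) : ℕ :=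
  coeff n ((mk fun _ => (1 : ℕ)) ^ m *
    (∏ i ∈ Finset.range (n + 1), mk fun j => if p ^ i ∣ j then (1 : ℕ) else 0) ^ ((p - 1) * m))

/-! ### a general criterion -/

theorem coeff_U_pow (R : Type*) [CommRing R] (c n : ℕ) :
    coeff n ((U : PowerSeries R) ^ (c + 1)) = ((c + n).choose c : R) := by
  rw [U, mk_one_pow_eq_mk_choose_add, coeff_mk]

theorem gen (c M : ℕ) (hc : 1 ≤ c)
    (h : ∀ t : ℕ, (((c + (c + 1) * t).choose c : ℕ) : ZMod M) = 1) (n : ℕ) :
    (S (c + 1) 1 ((c + 1) * n) : ZMod M) = S (c + 1) 1 n := by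
  obtain ⟨g, hg, h0⟩ := exists_S (R := ZMod M) (b := c + 1) (by omega) 1
  rw [S_spec (by omega) 1 g hg h0, S_spec (by omega) 1 g hg h0]
  conv_lhs => rw [hg]
  rw [pow_one, coeff_mul]
  set w : PowerSeries (ZMod M) := U ^ (c + 1) * (1 - X ^ (c + 1)) with hw
  have hw0 : coeff 0 w = 1 := by
    rw [hw, coeff_zero_eq_constantCoeff_apply, map_mul, map_pow,
      ← coeff_zero_eq_constantCoeff_apply, coeff_zero_U]
    simp
  have hwt : ∀ t : ℕ, 1 ≤ t → coeff ((c + 1) * t) w = 0 := by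
    intro t ht
    obtain ⟨s, rfl⟩ : ∃ s, t = s + 1 := ⟨t - 1, by omega⟩
    rw [hw, mul_sub, mul_one, map_sub, mul_comm (U ^ (c + 1)) (X ^ (c + 1)), coeff_X_pow_mul',
      if_pos (by nlinarith)]
    have e : (c + 1) * (s + 1) - (c + 1) = (c + 1) * s := by
      rw [mul_add, mul_one, Nat.add_sub_cancel]
    rw [e, coeff_U_pow, coeff_U_pow, h, h, sub_self]
  rw [Finset.sum_eq_single (0, (c + 1) * n)]
  · rw [hw0, one_mul, coeff_E, if_pos (dvd_mul_right _ _), Nat.mul_div_cancel_left _ (by omega)]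
  · rintro ⟨i, j⟩ hij hne
    rw [Finset.HasAntidiagonal.mem_antidiagonal] at hij
    simp only at hij ⊢
    by_cases hj : (c + 1) ∣ j
    · have hi : (c + 1) ∣ i := by
        have : (c + 1) ∣ i + j := by rw [hij]; exact dvd_mul_right _ _
        exact (Nat.dvd_add_left hj).mp this
      obtain ⟨t, rfl⟩ := hi
      have ht : 1 ≤ t := by
        by_contra h0'
        have : t = 0 := by omega
        subst this
        apply hne
        simp only [mul_zero, zero_add] at hij ⊢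
        rw [hij]
      rw [hwt t ht, zero_mul]
    · rw [coeff_E, if_neg hj, mul_zero]
  · intro hne
    exact absurd (Finset.HasAntidiagonal.mem_antidiagonal.mpr (by simp)) hne

/-! ### the product `∏ (a + x)` modulo `x^4` -/

/-- one step -/
def stp (M a : ℕ) (s : ℕ × ℕ × ℕ × ℕ) : ℕ × ℕ × ℕ × ℕ :=
  force ((s.1 * a) % M) fun x0 => force ((s.2.1 * a + s.1) % M) fun x1 =>
    force ((s.2.2.1 * a + s.2.1) % M) fun x2 => force ((s.2.2.2 * a + s.2.2.1) % M) fun x3 =>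
      (x0, x1, x2, x3)

/-- `2^k` steps starting with `a` -/
def run (M : ℕ) : ℕ → ℕ → ℕ × ℕ × ℕ × ℕ → ℕ × ℕ × ℕ × ℕ
  | 0, a, s => stp M a s
  | k + 1, a, s =>
    match run M k a s with
    | (x0, x1, x2, x3) => force (a + 2 ^ k) fun a' => run M k a' (x0, x1, x2, x3)

/-- the value of a state at `x` -/
def vl (M : ℕ) (s : ℕ × ℕ × ℕ × ℕ) (x : ZMod M) : ZMod M :=
  s.1 + s.2.1 * x + s.2.2.1 * x ^ 2 + s.2.2.2 * x ^ 3

theorem vl_stp (M a : ℕ) (s : ℕ × ℕ × ℕ × ℕ) (x : ZMod M) (hx : x ^ 4 = 0) :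
    vl M (stp M a s) x = (x + a) * vl M s x := by
  simp only [stp, force_eq, vl, ZMod.natCast_mod, Nat.cast_mul, Nat.cast_add]
  linear_combination (-(s.2.2.2 : ZMod M)) * hx

theorem vl_run (M : ℕ) (x : ZMod M) (hx : x ^ 4 = 0) (k : ℕ) : ∀ (a : ℕ) (s : ℕ × ℕ × ℕ × ℕ),
    vl M (run M k a s) x = (∏ i ∈ Finset.range (2 ^ k), (x + ((a + i : ℕ) : ZMod M))) *
      vl M s x := by
  induction k with
  | zero =>
    intro a s
    rw [run, vl_stp M a s x hx]
    simp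
  | succ k ih =>
    intro a s
    have h1 : run M (k + 1) a s = run M k (a + 2 ^ k) (run M k a s) := by
      rw [run]
      simp only [force_eq]
    rw [h1, ih, ih, pow_succ, mul_two, Finset.prod_range_add]
    have : ∀ i, a + (2 ^ k + i) = a + 2 ^ k + i := by intro i; ring
    simp only [this]
    ring

/-- the prime -/
def P : ℕ := 16843

/-- the state after all steps -/
def fin : ℕ × ℕ × ℕ × ℕ :=
  (57610133467800119, 32300187388763320, 25421591820596480, 31655843094410044)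

theorem comp : run (P ^ 4) 1 (1 + 16384 + 256 + 128 + 64 + 8)
    (run (P ^ 4) 3 (1 + 16384 + 256 + 128 + 64) (run (P ^ 4) 6 (1 + 16384 + 256 + 128)
    (run (P ^ 4) 7 (1 + 16384 + 256) (run (P ^ 4) 8 (1 + 16384)
    (run (P ^ 4) 14 1 (1, 0, 0, 0)))))) = fin := by
  decide +kernel

theorem prod_eq (x : ZMod (P ^ 4)) (hx : x ^ 4 = 0) :
    ∏ i ∈ Finset.range 16842, (x + ((1 + i : ℕ) : ZMod (P ^ 4))) = vl (P ^ 4) fin x := by
  rw [← comp, vl_run _ _ hx, vl_run _ _ hx, vl_run _ _ hx, vl_run _ _ hx, vl_run _ _ hx,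
    vl_run _ _ hx]
  have e : 16842 = 2 ^ 14 + 2 ^ 8 + 2 ^ 7 + 2 ^ 6 + 2 ^ 3 + 2 ^ 1 := by norm_num
  rw [e, Finset.prod_range_add, Finset.prod_range_add, Finset.prod_range_add,
    Finset.prod_range_add, Finset.prod_range_add]
  have hv : vl (P ^ 4) (1, 0, 0, 0) x = 1 := by simp [vl]
  rw [hv]
  have h1 : ∀ i, 1 + (2 ^ 14 + i) = 1 + 16384 + i := by intro i; norm_num; ring
  have h2 : ∀ i, 1 + (2 ^ 14 + 2 ^ 8 + i) = 1 + 16384 + 256 + i := by intro i; norm_num; ring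
  have h3 : ∀ i, 1 + (2 ^ 14 + 2 ^ 8 + 2 ^ 7 + i) = 1 + 16384 + 256 + 128 + i := by
    intro i; norm_num; ring
  have h4 : ∀ i, 1 + (2 ^ 14 + 2 ^ 8 + 2 ^ 7 + 2 ^ 6 + i) = 1 + 16384 + 256 + 128 + 64 + i := by
    intro i; norm_num; ring
  have h5 : ∀ i, 1 + (2 ^ 14 + 2 ^ 8 + 2 ^ 7 + 2 ^ 6 + 2 ^ 3 + i) =
      1 + 16384 + 256 + 128 + 64 + 8 + i := by
    intro i; norm_num; ring
  simp only [h1, h2, h3, h4, h5]
  ring

theorem P_pow_zero : (P : ZMod (P ^ 4)) ^ 4 = 0 := by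
  have := ZMod.natCast_self (P ^ 4)
  rwa [Nat.cast_pow] at this

theorem vl_fin (t : ZMod (P ^ 4)) : vl (P ^ 4) fin ((P : ZMod (P ^ 4)) * t) = fin.1 := by
  have h := P_pow_zero
  have e1 : fin.2.1 = P ^ 3 * 6760 := by decide +kernel
  have e2 : fin.2.2.1 = P ^ 2 * 89611520 := by decide +kernel
  have e3 : fin.2.2.2 = P * 1879465837108 := by decide +kernel
  rw [vl, e1, e2, e3]
  simp only [Nat.cast_mul, Nat.cast_pow]
  linear_combination (((6760 : ℕ) : ZMod (P ^ 4)) * t + ((89611520 : ℕ) : ZMod (P ^ 4)) * t ^ 2 +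
    ((1879465837108 : ℕ) : ZMod (P ^ 4)) * t ^ 3) * h

theorem P_prime : Nat.Prime P := by norm_num [P]

theorem choose_eq (t : ℕ) : (((16842 + (16842 + 1) * t).choose 16842 : ℕ) : ZMod (P ^ 4)) = 1 := by
  have hasc : ∀ t : ℕ, ((Nat.factorial 16842 : ℕ) : ZMod (P ^ 4)) *
      (((P * t + 16842).choose 16842 : ℕ) : ZMod (P ^ 4)) = fin.1 := by
    intro t
    rw [← Nat.cast_mul, ← Nat.ascFactorial_eq_factorial_mul_choose, Nat.ascFactorial_eq_prod_range,
      Nat.cast_prod]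
    have h := prod_eq ((P : ZMod (P ^ 4)) * t) (by rw [mul_pow, P_pow_zero, zero_mul])
    rw [vl_fin] at h
    rw [← h]
    apply Finset.prod_congr rfl
    intro i _
    push_cast
    ring
  have h0 := hasc 0
  rw [mul_zero, zero_add, Nat.choose_self, Nat.cast_one, mul_one] at h0
  have ht := hasc t
  rw [← h0] at ht
  have hu : IsUnit ((Nat.factorial 16842 : ℕ) : ZMod (P ^ 4)) := by
    rw [ZMod.isUnit_iff_coprime]
    apply Nat.Coprime.pow_right
    rw [Nat.coprime_comm, P_prime.coprime_iff_not_dvd, P_prime.dvd_factorial]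
    norm_num [P]
  have h2 : (16842 + (16842 + 1) * t) = P * t + 16842 := by
    have : P = 16842 + 1 := rfl
    rw [this]; ring
  rw [h2]
  have h3 : ((Nat.factorial 16842 : ℕ) : ZMod (P ^ 4)) *
      (((P * t + 16842).choose 16842 : ℕ) : ZMod (P ^ 4)) =
      ((Nat.factorial 16842 : ℕ) : ZMod (P ^ 4)) * 1 := by rw [ht, mul_one]
  exact hu.mul_left_cancel h3

theorem congr (n : ℕ) : ((d P 1 (P * n) : ℕ) : ZMod (P ^ 4)) = (d P 1 n : ℕ) :=
  gen 16842 (P ^ 4) (by norm_num) choose_eq n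

/-- **Q1 of the problem is false**: it fails for the Wolstenholme prime `p = 16843` with `m = 1`
and `n = 1`. -/
theorem result : ¬ ∀ p : ℕ, p.Prime → 3 ≤ p → ∀ m, 1 ≤ m → m % p ≠ p - 1 → ∀ n, 1 ≤ n →
    emultiplicity (p : ℤ) ((d p m (p ^ 2 * n) : ℤ) - (d p m n : ℤ)) =
      ((padicValNat p n + 2 * padicValNat p m + 3 - (if p = 3 then 1 else 0) : ℕ) : ℕ∞) := by
  intro h
  have h1 := h P P_prime (by norm_num [P]) 1 le_rfl (by norm_num [P]) 1 le_rfl
  have h2 : ((P : ℤ) ^ 4) ∣ ((d P 1 (P ^ 2 * 1) : ℤ) - (d P 1 1 : ℤ)) := by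
    have e1 := congr (P * 1)
    have e2 := congr 1
    rw [e2] at e1
    have e3 : P * (P * 1) = P ^ 2 * 1 := by ring
    rw [e3] at e1
    have e4 := (ZMod.intCast_eq_intCast_iff_dvd_sub (d P 1 1 : ℤ) (d P 1 (P ^ 2 * 1) : ℤ)
      (P ^ 4)).mp (by push_cast; exact e1.symm)
    exact_mod_cast e4
  have h3 := pow_dvd_iff_le_emultiplicity.mp h2
  rw [h1] at h3
  have h4 : (padicValNat P 1 + 2 * padicValNat P 1 + 3 - (if P = 3 then 1 else 0) : ℕ) ≤ 3 := by
    simp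
  have h5 : (4 : ℕ∞) ≤ (3 : ℕ) := le_trans h3 (by exact_mod_cast h4)
  exact absurd h5 (by norm_num)

end Pool.Agent.Results.MP_26251e_nt.QOneFalse
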