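import Mathlib
import Pool.Agent.Q35.Col

namespace Pool.Agent.Results.MP_26251e_nt.QTwoFalse

open PowerSeries Pool.Agent.Q35

/-- `d p m n`, the coefficient of `x^n` in
`(1-x)^(-m) ∏_{j ≥ 0} (1 - x^(p^j))^(-(p-1)m)`; the factors with `j > n` do not influence this
coefficient, and `1/(1-x^e)` is written as the series with coefficient `1` at the multiples of `e`
and `0` elsewhere. -/
noncomputable def d (p m n : ℕ) : ℕ :=
  coeff n ((mk fun _ => (1 : ℕ)) ^ m *
    (∏ i ∈ Finset.range (n + 1), mk fun j => if p ^ i ∣ j then (1 : ℕ) else 0) ^ ((p - 1) * m))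

/-! ### sections modulo 3 -/

/-- `z = x / (1-x)^2` -/
noncomputable def z : PowerSeries ℤ := X * U ^ 2

/-- the subseries of the exponents divisible by `3` -/
noncomputable def sec3 (F : PowerSeries ℤ) : PowerSeries ℤ := mk fun n => coeff (3 * n) F

theorem coeff_XE3 (f : PowerSeries ℤ) (n d j : ℕ) (hd : d < 3) (hj : j < 3) :
    coeff (3 * n + d) (X ^ j * E 3 f) = if d = j then coeff n f else 0 := by
  rw [coeff_X_pow_mul']
  by_cases h : j ≤ 3 * n + d
  · rw [if_pos h, coeff_E]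
    by_cases h2 : d = j
    · subst h2
      rw [if_pos rfl, Nat.add_sub_cancel, if_pos (dvd_mul_right 3 n),
        Nat.mul_div_cancel_left n (by norm_num)]
    · rw [if_neg h2, if_neg]
      omega
  · rw [if_neg h, if_neg (by omega)]

theorem sec3_dec (A B C : PowerSeries ℤ) :
    sec3 (X ^ 0 * E 3 A + X ^ 1 * E 3 B + X ^ 2 * E 3 C) = A := by
  ext n
  rw [sec3, coeff_mk, map_add, map_add]
  have h0 := coeff_XE3 A n 0 0 (by norm_num) (by norm_num)
  have h1 := coeff_XE3 B n 0 1 (by norm_num) (by norm_num)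
  have h2 := coeff_XE3 C n 0 2 (by norm_num) (by norm_num)
  rw [add_zero] at h0 h1 h2
  rw [h0, h1, h2, if_pos rfl, if_neg (by norm_num), if_neg (by norm_num), add_zero, add_zero]

theorem exists_dec (F : PowerSeries ℤ) : ∃ B C : PowerSeries ℤ,
    F = X ^ 0 * E 3 (sec3 F) + X ^ 1 * E 3 B + X ^ 2 * E 3 C := by
  refine ⟨mk fun n => coeff (3 * n + 1) F, mk fun n => coeff (3 * n + 2) F, ?_⟩
  ext n
  obtain ⟨k, d, hd, rfl⟩ : ∃ k d, d < 3 ∧ n = 3 * k + d := ⟨n / 3, n % 3, by omega, by omega⟩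
  rw [map_add, map_add, coeff_XE3 _ k d 0 hd (by norm_num), coeff_XE3 _ k d 1 hd (by norm_num),
    coeff_XE3 _ k d 2 hd (by norm_num), sec3, coeff_mk, coeff_mk, coeff_mk]
  interval_cases d <;> simp

theorem sec3_mulE (F H : PowerSeries ℤ) : sec3 (F * E 3 H) = sec3 F * H := by
  obtain ⟨B, C, h⟩ := exists_dec F
  have e : F * E 3 H = X ^ 0 * E 3 (sec3 F * H) + X ^ 1 * E 3 (B * H) + X ^ 2 * E 3 (C * H) := by
    conv_lhs => rw [h]
    rw [map_mul, map_mul, map_mul]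
    ring
  rw [e, sec3_dec]

theorem sec3_add (F G : PowerSeries ℤ) : sec3 (F + G) = sec3 F + sec3 G := by
  ext n; simp [sec3]

theorem sec3_one : sec3 1 = 1 := by
  have h := sec3_mulE 1 1
  have e : sec3 (1 : PowerSeries ℤ) = 1 := by
    ext n
    rw [sec3, coeff_mk, coeff_one, coeff_one]
    by_cases hn : n = 0
    · subst hn; simp
    · rw [if_neg (by omega), if_neg hn]
  exact e

theorem U_E : (U : PowerSeries ℤ) = (1 + X + X ^ 2) * E 3 U := by
  have h1 : (1 - X ^ 3 : PowerSeries ℤ) * E 3 U = 1 := by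
    have : (1 - X ^ 3 : PowerSeries ℤ) = E 3 (1 - X) := by rw [map_sub, map_one, E_X]
    rw [this, ← map_mul, mul_U, map_one]
  have h2 := U_mul (R := ℤ)
  calc (U : PowerSeries ℤ) = U * ((1 - X ^ 3) * E 3 U) := by rw [h1, mul_one]
    _ = (U * (1 - X)) * ((1 + X + X ^ 2) * E 3 U) := by ring
    _ = _ := by rw [h2, one_mul]

theorem sec3_z : sec3 z = 3 * z := by
  have e : z = X ^ 0 * E 3 (3 * z) + X ^ 1 * E 3 ((1 + 2 * X) * U ^ 2) +
      X ^ 2 * E 3 ((2 + X) * U ^ 2) := by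
    have e3 : E 3 (3 : PowerSeries ℤ) = 3 := map_ofNat (E 3) 3
    have e2 : E 3 (2 : PowerSeries ℤ) = 2 := map_ofNat (E 3) 2
    have hU := U_E
    simp only [z, map_mul, map_add, map_pow, map_one, E_X, e3, e2]
    conv_lhs => rw [hU]
    ring
  conv_lhs => rw [e]
  rw [sec3_dec]

theorem sec3_z2 : sec3 (z ^ 2) = 4 * z + 27 * z ^ 2 := by
  have h0 : 4 * z + 27 * z ^ 2 = (4 * X + 19 * X ^ 2 + 4 * X ^ 3) * U ^ 4 := by
    have h2 := U_mul (R := ℤ)
    have h3 : (U : PowerSeries ℤ) ^ 2 = U ^ 4 * (1 - X) ^ 2 := by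
      calc (U : PowerSeries ℤ) ^ 2 = U ^ 2 * (U * (1 - X)) ^ 2 := by rw [h2]; ring
        _ = _ := by ring
    rw [z, h3]
    have h4 : ((X * (U ^ 4 * (1 - X) ^ 2)) ^ 2 : PowerSeries ℤ) =
        X ^ 2 * U ^ 4 * (U * (1 - X)) ^ 4 := by ring
    rw [h4, h2]
    ring
  have e : z ^ 2 = X ^ 0 * E 3 (4 * z + 27 * z ^ 2) + X ^ 1 * E 3 ((10 * X + 16 * X ^ 2 + X ^ 3) *
      U ^ 4) + X ^ 2 * E 3 ((1 + 16 * X + 10 * X ^ 2) * U ^ 4) := by
    rw [h0]
    have e4 : E 3 (4 : PowerSeries ℤ) = 4 := map_ofNat (E 3) 4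
    have e19 : E 3 (19 : PowerSeries ℤ) = 19 := map_ofNat (E 3) 19
    have e10 : E 3 (10 : PowerSeries ℤ) = 10 := map_ofNat (E 3) 10
    have e16 : E 3 (16 : PowerSeries ℤ) = 16 := map_ofNat (E 3) 16
    have hU := U_E
    simp only [z, map_mul, map_add, map_pow, map_one, E_X, e4, e19, e10, e16]
    conv_lhs => rw [hU]
    ring
  conv_lhs => rw [e]
  rw [sec3_dec]

theorem w_eq : (U ^ 3 * (1 - X ^ 3) : PowerSeries ℤ) = 1 + 3 * z := by
  have h2 := U_mul (R := ℤ)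
  rw [z]
  linear_combination ((U : PowerSeries ℤ) ^ 2 * (1 + X + X ^ 2) + U * (1 - X) + 1) * h2

theorem z_cube : z ^ 3 = E 3 z * (1 + 3 * z) ^ 2 := by
  have h1 : (1 - X ^ 3 : PowerSeries ℤ) * E 3 U = 1 := by
    have : (1 - X ^ 3 : PowerSeries ℤ) = E 3 (1 - X) := by rw [map_sub, map_one, E_X]
    rw [this, ← map_mul, mul_U, map_one]
  rw [← w_eq, z, map_mul, map_pow, E_X]
  calc (X * U ^ 2 : PowerSeries ℤ) ^ 3 = X ^ 3 * U ^ 6 * ((1 - X ^ 3) * E 3 U) ^ 2 := by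
        rw [h1]; ring
    _ = _ := by ring

/-- `sec3` on the module with basis `1, z, z^2` -/
theorem sec3_form (a b c : PowerSeries ℤ) : sec3 (E 3 a + E 3 b * z + E 3 c * z ^ 2) =
    a + 3 * z * b + (4 * z + 27 * z ^ 2) * c := by
  have e : E 3 a + E 3 b * z + E 3 c * z ^ 2 = 1 * E 3 a + (z * E 3 b + z ^ 2 * E 3 c) := by ring
  rw [e, sec3_add, sec3_add, sec3_mulE, sec3_mulE, sec3_mulE, sec3_one, sec3_z, sec3_z2]
  ring

/-! ### the lattice -/

/-- evaluation at `3z` -/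
noncomputable def ev (P : Polynomial ℤ) : PowerSeries ℤ := Polynomial.aeval (3 * z) P

/-- the module `N` -/
def InN (F : PowerSeries ℤ) : Prop := ∃ α β γ : Polynomial ℤ,
  F = E 3 (ev (Polynomial.X * α)) + E 3 (ev β) * z + E 3 (ev (3 * γ)) * z ^ 2

theorem InN_add {F G : PowerSeries ℤ} (hF : InN F) (hG : InN G) : InN (F + G) := by
  obtain ⟨a, b, c, h⟩ := hF
  obtain ⟨a', b', c', h'⟩ := hG
  refine ⟨a + a', b + b', c + c', ?_⟩
  rw [h, h']
  simp only [ev, mul_add, map_add]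
  ring

theorem ev_X_mul (P : Polynomial ℤ) : ev (Polynomial.X * P) = 3 * z * ev P := by
  rw [ev, ev, map_mul, Polynomial.aeval_X]

theorem InN_mul {F : PowerSeries ℤ} (hF : InN F) : InN (3 * z * F) := by
  obtain ⟨a, b, c, h⟩ := hF
  refine ⟨3 * c, Polynomial.X * (3 * a + 18 * c), b + 9 * (Polynomial.X * c), ?_⟩
  rw [h]
  have hz := z_cube
  have e3 : ev (3 * c) = 3 * ev c := by simp only [ev, map_mul, map_ofNat]
  have e1 : ev (3 * a + 18 * c) = 3 * ev a + 18 * ev c := by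
    simp only [ev, map_mul, map_add, map_ofNat]
  have e2 : ev (3 * (b + 9 * (Polynomial.X * c))) = 3 * (ev b + 9 * (3 * z * ev c)) := by
    rw [← ev_X_mul]; simp only [ev, map_mul, map_add, map_ofNat]
  have E3 : E 3 (3 : PowerSeries ℤ) = 3 := map_ofNat (E 3) 3
  have E9 : E 3 (9 : PowerSeries ℤ) = 9 := map_ofNat (E 3) 9
  have E18 : E 3 (18 : PowerSeries ℤ) = 18 := map_ofNat (E 3) 18
  rw [e2]
  simp only [ev_X_mul, e3, e1, map_mul, map_add, E3, E9, E18]
  linear_combination (9 * E 3 (ev c)) * hz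

theorem InN_C_mul {F : PowerSeries ℤ} (hF : InN F) (k : ℤ) : InN (C k * F) := by
  obtain ⟨a, b, c, h⟩ := hF
  refine ⟨Polynomial.C k * a, Polynomial.C k * b, Polynomial.C k * c, ?_⟩
  rw [h]
  have hC : ∀ P : Polynomial ℤ, ev (Polynomial.C k * P) = C k * ev P := by
    intro P
    rw [ev, map_mul, Polynomial.aeval_C]; rfl
  have e1 : Polynomial.X * (Polynomial.C k * a) = Polynomial.C k * (Polynomial.X * a) := by ring
  have e2 : 3 * (Polynomial.C k * c) = Polynomial.C k * (3 * c) := by ring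
  rw [e1, e2, hC, hC, hC, map_mul, map_mul, map_mul, E_C]
  ring

theorem InN_z : InN z := by
  refine ⟨0, 1, 0, ?_⟩
  simp [ev]

theorem InN_poly (P : Polynomial ℤ) : InN (z * ev P) := by
  induction P using Polynomial.induction_on' with
  | add p q hp hq =>
    have : z * ev (p + q) = z * ev p + z * ev q := by simp only [ev, map_add]; ring
    rw [this]
    exact InN_add hp hq
  | monomial n a =>
    induction n with
    | zero =>
      have : z * ev (Polynomial.monomial 0 a) = C a * z := by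
        rw [ev, Polynomial.monomial_zero_left, Polynomial.aeval_C, mul_comm]; rfl
      rw [this]
      exact InN_C_mul InN_z a
    | succ n ih =>
      have h1 : (Polynomial.monomial (n + 1) a : Polynomial ℤ) =
          Polynomial.X * Polynomial.monomial n a := by
        rw [Polynomial.X_mul_monomial]
      have : z * ev (Polynomial.monomial (n + 1) a) = 3 * z * (z * ev (Polynomial.monomial n a)) := by
        rw [h1, ev_X_mul]; ring
      rw [this]
      exact InN_mul ih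

theorem sec3_InN {F : PowerSeries ℤ} (hF : InN F) : ∃ Q : Polynomial ℤ,
    sec3 F = 3 * (z * ev Q) := by
  obtain ⟨a, b, c, h⟩ := hF
  refine ⟨a + b + 4 * c + 9 * (Polynomial.X * c), ?_⟩
  rw [h, sec3_form, ev_X_mul]
  have e3 : ev (3 * c) = 3 * ev c := by simp only [ev, map_mul, map_ofNat]
  have e1 : ev (a + b + 4 * c + 9 * (Polynomial.X * c)) =
      ev a + ev b + 4 * ev c + 9 * (3 * z * ev c) := by
    rw [← ev_X_mul]; simp only [ev, map_mul, map_add, map_ofNat]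
  rw [e3, e1]
  ring

/-! ### the series for `m = 8` -/

/-- expansion of the eighth power, constant part -/
def pA {R : Type*} [CommRing R] (t : R) : R := 
    1 + 1512 * t ^ 1 + 153090 * t ^ 2 + 4330260 * t ^ 3 + 48361131 * t ^ 4 + 229582512 * t
    ^ 5 + 387420489 * t ^ 6

/-- expansion of the eighth power, linear part -/
def pB {R : Type*} [CommRing R] (t : R) : R := 
    24 + 14742 * t ^ 1 + 1180980 * t ^ 2 + 29878794 * t ^ 3 + 312487308 * t ^ 4 +
    1420541793 * t ^ 5 + 2324522934 * t ^ 6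

/-- expansion of the eighth power, quadratic part -/
def pC {R : Type*} [CommRing R] (t : R) : R := 
    252 + 61236 * t ^ 1 + 3247695 * t ^ 2 + 64481508 * t ^ 3 + 573956280 * t ^ 4 +
    2324522934 * t ^ 5 + 3486784401 * t ^ 6

theorem pow_eight {R : Type*} [CommRing R] (z Z : R) (h : z ^ 3 = Z * (1 + 3 * z) ^ 2) :
    (1 + 3 * z) ^ 8 = pA Z + pB Z * z + pC Z * z ^ 2 := by
  simp only [pA, pB, pC]
  linear_combination (
    (1512 + 153090 * Z ^ 1 + 4330260 * Z ^ 2 + 48361131 * Z ^ 3 + 229582512 * Z ^ 4 +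
    387420489 * Z ^ 5) + (5670 + 262440 * Z ^ 1 + 3897234 * Z ^ 2 + 22320522 * Z ^ 3 +
    43046721 * Z ^ 4) * z ^ 1 + (13608 + 295245 * Z ^ 1 + 2125764 * Z ^ 2 + 4782969 * Z ^
    3) * z ^ 2 + (20412 + 196830 * Z ^ 1 + 531441 * Z ^ 2) * z ^ 3 + (17496 + 59049 * Z ^
    1) * z ^ 4 + (6561) * z ^ 5) * h

theorem E_pA (t : PowerSeries ℤ) : E 3 (pA t) = pA (E 3 t) := by
  simp only [pA, map_add, map_mul, map_pow, map_ofNat, map_one]

theorem E_pB (t : PowerSeries ℤ) : E 3 (pB t) = pB (E 3 t) := by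
  simp only [pB, map_add, map_mul, map_pow, map_ofNat, map_one]

theorem E_pC (t : PowerSeries ℤ) : E 3 (pC t) = pC (E 3 t) := by
  simp only [pC, map_add, map_mul, map_pow, map_ofNat, map_one]

/-- the quotient polynomial -/
noncomputable def R0 : Polynomial ℤ := 
    32 * Polynomial.X ^ 0 + 1848 * Polynomial.X ^ 1 + 30888 * Polynomial.X ^ 2 + 221130 *
    Polynomial.X ^ 3 + 793152 * Polynomial.X ^ 4 + 1495908 * Polynomial.X ^ 5 + 1417176 *
    Polynomial.X ^ 6 + 531441 * Polynomial.X ^ 7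

theorem sec3_w : sec3 ((U ^ 3 * (1 - X ^ 3)) ^ 8) = 1 + 81 * (z * ev R0) := by
  rw [w_eq, pow_eight z (E 3 z) z_cube, ← E_pA, ← E_pB, ← E_pC, sec3_form]
  have e : ev R0 = 
    32 * (3 * z) ^ 0 + 1848 * (3 * z) ^ 1 + 30888 * (3 * z) ^ 2 + 221130 * (3 * z) ^ 3 +
    793152 * (3 * z) ^ 4 + 1495908 * (3 * z) ^ 5 + 1417176 * (3 * z) ^ 6 + 531441 * (3 *
    z) ^ 7 := by
    simp only [ev, R0, map_add, map_mul, map_pow, map_ofNat, Polynomial.aeval_X]
  rw [e]
  generalize z = z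
  simp only [pA, pB, pC]
  ring

section main

variable (g : PowerSeries ℤ) (hg : g = (U ^ 3 * (1 - X ^ 3)) ^ 8 * E 3 g)

include hg

theorem sec3_g : sec3 g = g + 81 * (g * (z * ev R0)) := by
  conv_lhs => rw [hg]
  rw [sec3_mulE, sec3_w]
  ring

theorem sec3_gz (Q : Polynomial ℤ) : ∃ Q' : Polynomial ℤ,
    sec3 (g * (z * ev Q)) = 3 * (g * (z * ev Q')) := by
  obtain ⟨Q', hQ'⟩ := sec3_InN (InN_poly ((1 + Polynomial.X) ^ 8 * Q))
  refine ⟨Q', ?_⟩
  have e : g * (z * ev Q) = (z * ev ((1 + Polynomial.X) ^ 8 * Q)) * E 3 g := by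
    have h1 : ev ((1 + Polynomial.X) ^ 8 * Q) = (U ^ 3 * (1 - X ^ 3)) ^ 8 * ev Q := by
      rw [w_eq, ev, map_mul, map_pow, map_add, map_one, Polynomial.aeval_X]; rfl
    rw [h1]
    conv_lhs => rw [hg]
    ring
  rw [e, sec3_mulE, hQ']
  ring

omit hg in
theorem sec3_C_mul (k : ℤ) (F : PowerSeries ℤ) : sec3 (C k * F) = C k * sec3 F := by
  ext n
  rw [sec3, coeff_mk, coeff_C_mul, coeff_C_mul, sec3, coeff_mk]

theorem iter_sec3 (j : ℕ) : ∀ Q : Polynomial ℤ, ∃ Q' : Polynomial ℤ, ∀ n,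
    coeff (3 ^ j * n) (g * (z * ev Q)) = 3 ^ j * coeff n (g * (z * ev Q')) := by
  induction j with
  | zero => intro Q; exact ⟨Q, fun n => by simp⟩
  | succ j ih =>
    intro Q
    obtain ⟨Q1, h1⟩ := sec3_gz g hg Q
    obtain ⟨Q', hQ'⟩ := ih Q1
    refine ⟨Q', fun n => ?_⟩
    have e1 : coeff (3 ^ (j + 1) * n) (g * (z * ev Q)) =
        coeff (3 ^ j * n) (sec3 (g * (z * ev Q))) := by
      rw [sec3, coeff_mk]
      congr 1
      ring
    have e3 : (3 : PowerSeries ℤ) = C 3 := rfl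
    rw [e1, h1, e3, coeff_C_mul, hQ']
    ring

theorem diff_form : ∃ Q : Polynomial ℤ, ∀ n,
    coeff (9 * n) g - coeff n g = 81 * coeff n (g * (z * ev Q)) := by
  obtain ⟨Q1, h1⟩ := sec3_gz g hg R0
  have h2 := sec3_g g hg
  have e81 : (81 : PowerSeries ℤ) = C 81 := rfl
  have h3 : sec3 (sec3 g) = sec3 g + 81 * (3 * (g * (z * ev Q1))) := by
    conv_lhs => rw [h2]
    rw [sec3_add, e81, sec3_C_mul, h1]
  refine ⟨R0 + 3 * Q1, fun n => ?_⟩
  have e1 : coeff (9 * n) g = coeff n (sec3 (sec3 g)) := by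
    rw [sec3, coeff_mk, sec3, coeff_mk]
    congr 1
    ring
  have e2 : ev (R0 + 3 * Q1) = ev R0 + 3 * ev Q1 := by simp only [ev, map_mul, map_add, map_ofNat]
  have e4 : sec3 (sec3 g) = g + 81 * (g * (z * ev (R0 + 3 * Q1))) := by
    rw [h3, h2, e2]; ring
  rw [e1, e4, e81, map_add, coeff_C_mul]
  ring

theorem dvd_diff (j n : ℕ) :
    (3 : ℤ) ^ (j + 4) ∣ coeff (9 * (3 ^ j * n)) g - coeff (3 ^ j * n) g := by
  obtain ⟨Q, hQ⟩ := diff_form g hg
  obtain ⟨Q', hQ'⟩ := iter_sec3 g hg j Q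
  rw [hQ, hQ']
  exact ⟨coeff n (g * (z * ev Q')), by ring⟩

end main

/-- **Q2 of the problem is false**: for `p = 3` and `m = 8` the inequality of Q2 is strict for
every `n ≥ 1`, so equality does not hold for infinitely many `n`. -/
theorem result : ∃ p m : ℕ, p.Prime ∧ 3 ≤ p ∧ 1 ≤ m ∧ m % p = p - 1 ∧ ∀ n, 1 ≤ n →
    ((padicValNat p n + 4 - (if p = 3 then 1 else 0) : ℕ) : ℕ∞) <
      emultiplicity (p : ℤ) ((d p m (p ^ 2 * n) : ℤ) - (d p m n : ℤ)) := by
  refine ⟨3, 8, by norm_num, le_rfl, by norm_num, by norm_num, fun n hn => ?_⟩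
  obtain ⟨g, hg, h0⟩ := exists_S (R := ℤ) (b := 3) (by norm_num) 8
  have hd : ∀ n, (d 3 8 n : ℤ) = coeff n g := fun n =>
    S_spec (b := 3) (by norm_num) 8 g hg h0 n
  have h1 : (3 : ℤ) ^ (padicValNat 3 n + 4) ∣ (d 3 8 (3 ^ 2 * n) : ℤ) - (d 3 8 n : ℤ) := by
    rw [hd, hd]
    obtain ⟨c, hc⟩ : 3 ^ padicValNat 3 n ∣ n := pow_padicValNat_dvd
    have h2 := dvd_diff g hg (padicValNat 3 n) c
    rw [← hc] at h2
    exact h2
  have h3 := pow_dvd_iff_le_emultiplicity.mp h1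
  refine lt_of_lt_of_le ?_ h3
  have h4 : padicValNat 3 n + 4 - (if 3 = 3 then 1 else 0) < padicValNat 3 n + 4 := by
    rw [if_pos rfl]; omega
  exact_mod_cast h4

end Pool.Agent.Results.MP_26251e_nt.QTwoFalse
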